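import Pool.Agent.H998.HK.Spec3

/-!
# Task WFB2 of project HK (helper998): form bounds for wave functions of `n + 1` electrons
-/

set_option autoImplicit false

noncomputable section

namespace Pool.Agent.H803.HK

open MeasureTheory Filter Topology Set
open scoped ENNReal NNReal RealInnerProductSpace ComplexConjugate ContDiff
open Pool.Agent.H998.HK

/-- the linear homeomorphism `(ℝ³)^{n+1} ≃ ℝ³ × (ℝ³)ⁿ` -/
def Lc (n : ℕ) : (Fin (n + 1) → E3) ≃L[ℝ] Xn n :=
  LinearEquiv.toContinuousLinearEquiv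
    { toFun := fun x => (x 0, fun j => x j.succ)
      map_add' := by intros; rfl
      map_smul' := by intros; rfl
      invFun := fun z => Fin.cons z.1 z.2
      left_inv := by
        intro x
        funext j
        refine Fin.cases ?_ ?_ j
        · simp
        · intro j
          simp
      right_inv := by
        intro z
        simp }

lemma Lc_apply (n : ℕ) (x : Fin (n + 1) → E3) : Lc n x = (x 0, fun j => x j.succ) := rfl

lemma Lc_symm (n : ℕ) (z : Xn n) : (Lc n).symm z = Fin.cons z.1 z.2 := rfl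

lemma Lc_mp (n : ℕ) : MeasurePreserving (Lc n) volume volume := by
  have h := volume_preserving_piFinSuccAbove (fun _ : Fin (n + 1) => E3) 0
  have e : (⇑(Lc n) : (Fin (n + 1) → E3) → Xn n) =
      ⇑(MeasurableEquiv.piFinSuccAbove (fun _ : Fin (n + 1) => E3) 0) := by
    funext x
    rfl
  rw [e]
  exact h

lemma Lc_me (n : ℕ) : MeasurableEmbedding (Lc n) :=
  (Lc n).toHomeomorph.measurableEmbedding

lemma Lc_ee_zero (n : ℕ) (i : Fin 3) : Lc n (ee (n + 1) 0 i) = ex n i := by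
  rw [Lc_apply]
  unfold ee ex
  ext1
  · simp
  · funext j
    simp

lemma Lc_ee_succ (n : ℕ) (j : Fin n) (i : Fin 3) : Lc n (ee (n + 1) j.succ i) = ey n j i := by
  rw [Lc_apply]
  unfold ee ey
  ext1
  · simp [Fin.succ_ne_zero]
  · funext k
    by_cases h : k = j
    · subst h
      simp
    · simp [Pi.single_apply, h]

lemma WD_transport (n : ℕ) (e : Fin (n + 1) → E3) (u g : (Fin (n + 1) → E3) → ℂ)
    (h : WD e u g) : WD (Lc n e) (fun z => u ((Lc n).symm z)) (fun z => g ((Lc n).symm z)) := by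
  intro φ hφ
  have h1 := h (φ ∘ Lc n) ⟨hφ.1.comp (Lc n).contDiff, hφ.2.comp_homeomorph (Lc n).toHomeomorph⟩
  have h2 := (Lc_mp n).integral_comp (Lc_me n)
    (fun z => fderiv ℝ φ z (Lc n e) • u ((Lc n).symm z))
  have h3 := (Lc_mp n).integral_comp (Lc_me n)
    (fun z => φ z • g ((Lc n).symm z))
  rw [← h2, ← h3]
  have h4 : ∀ x, fderiv ℝ (φ ∘ Lc n) x e = fderiv ℝ φ (Lc n x) (Lc n e) := by
    intro x
    rw [fderiv_comp x (hφ.1.differentiable (by simp) _) (Lc n).differentiableAt,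
      ContinuousLinearEquiv.fderiv]
    simp
  simp only [h4, Function.comp_apply] at h1
  simpa using h1

lemma memLp_transport (n : ℕ) (u : (Fin (n + 1) → E3) → ℂ) (h : MemLp u 2) :
    MemLp (fun z => u ((Lc n).symm z)) 2 := by
  have h1 : MeasurePreserving (Lc n).symm volume volume :=
    (Lc_mp n).symm (Lc n).toHomeomorph.toMeasurableEquiv
  exact h.comp_measurePreserving h1

lemma lint_transport (n : ℕ) (F : Xn n → ℝ≥0∞) : ∫⁻ x, F (Lc n x) = ∫⁻ z, F z :=
  (Lc_mp n).lintegral_comp_emb (Lc_me n) F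

/-- a measurable representative of a potential -/
lemma repr_XStar (v : E3 → ℝ) (hv : XStar v) :
    ∃ v' : E3 → ℝ, XStar v' ∧ Measurable v' ∧ v =ᵐ[volume] v' := by
  obtain ⟨v₁, v₂, h1, h2, h3⟩ := hv
  have hv : AEStronglyMeasurable v volume := by
    have : v = fun x => v₁ x + v₂ x := funext h3
    rw [this]
    exact h1.aestronglyMeasurable.add h2.aestronglyMeasurable
  refine ⟨hv.mk v, ⟨v₁, fun x => hv.mk v x - v₁ x, h1, ?_, fun x => by ring⟩,
    hv.stronglyMeasurable_mk.measurable, hv.ae_eq_mk⟩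
  refine h2.ae_eq ?_
  filter_upwards [hv.ae_eq_mk] with x hx
  rw [← hx, h3 x]
  ring

lemma bnd (hX : S_FBX) (hY : S_FBY) (n : ℕ) (v : E3 → ℝ) (hv : XStar v) (hm : Measurable v) :
    ∃ C : ℝ, 0 < C ∧ ∀ (u : (Fin (n + 1) → E3) → ℂ)
      (D : Fin (n + 1) → Fin 3 → (Fin (n + 1) → E3) → ℂ),
    MemLp u 2 → (∀ j i, MemLp (D j i) 2) → (∀ j i, WD (ee (n + 1) j i) u (D j i)) → ∀ j,
    ∫⁻ x, ENNReal.ofReal (|v (x j)| * ‖u x‖ ^ 2) ≤
      ENNReal.ofReal (1 / 4) * (∫⁻ x, ENNReal.ofReal (∑ i, ‖D j i x‖ ^ 2)) +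
        ENNReal.ofReal C * ∫⁻ x, ENNReal.ofReal (‖u x‖ ^ 2) := by
  obtain ⟨CX, hCX, hX⟩ := hX v hv hm (1 / 4) (by norm_num)
  obtain ⟨CY, hCY, hY⟩ := hY v hv hm (1 / 4) (by norm_num)
  refine ⟨CX + CY, by positivity, ?_⟩
  intro u D hu hD hW j
  refine Fin.cases ?_ ?_ j
  · have h := hX n (fun z => u ((Lc n).symm z)) (fun i z => D 0 i ((Lc n).symm z))
      (memLp_transport n u hu) (fun i => memLp_transport n _ (hD 0 i))
      (fun i => by rw [← Lc_ee_zero]; exact WD_transport n _ _ _ (hW 0 i))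
    simp only [← lint_transport n, ContinuousLinearEquiv.symm_apply_apply] at h
    simp only [Lc_apply] at h
    refine h.trans ?_
    gcongr
    linarith
  · intro j
    have h := hY n j (fun z => u ((Lc n).symm z)) (fun i z => D j.succ i ((Lc n).symm z))
      (memLp_transport n u hu) (fun i => memLp_transport n _ (hD j.succ i))
      (fun i => by rw [← Lc_ee_succ]; exact WD_transport n _ _ _ (hW j.succ i))
    simp only [← lint_transport n, ContinuousLinearEquiv.symm_apply_apply] at h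
    simp only [Lc_apply] at h
    refine h.trans ?_
    gcongr
    linarith

lemma coul (hX : S_COUX) (hY : S_COUY) (n : ℕ) :
    ∃ C : ℝ, 0 < C ∧ ∀ (u : (Fin (n + 1) → E3) → ℂ)
      (D : Fin (n + 1) → Fin 3 → (Fin (n + 1) → E3) → ℂ),
    MemLp u 2 → (∀ j i, MemLp (D j i) 2) → (∀ j i, WD (ee (n + 1) j i) u (D j i)) →
    ∀ j k : Fin (n + 1), j < k →
    ∫⁻ x, ENNReal.ofReal (1 / ‖x j - x k‖ * ‖u x‖ ^ 2) ≤
      ENNReal.ofReal 1 * (∫⁻ x, ENNReal.ofReal (∑ i, ‖D j i x‖ ^ 2)) +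
        ENNReal.ofReal C * ∫⁻ x, ENNReal.ofReal (‖u x‖ ^ 2) := by
  obtain ⟨CX, hCX, hX⟩ := hX 1 (by norm_num)
  obtain ⟨CY, hCY, hY⟩ := hY 1 (by norm_num)
  refine ⟨CX + CY, by positivity, ?_⟩
  intro u D hu hD hW j k
  refine Fin.cases ?_ ?_ j
  · intro hk
    obtain ⟨k, rfl⟩ := Fin.exists_succ_eq_of_ne_zero hk.ne'
    have h := hX n k (fun z => u ((Lc n).symm z)) (fun i z => D 0 i ((Lc n).symm z))
      (memLp_transport n u hu) (fun i => memLp_transport n _ (hD 0 i))
      (fun i => by rw [← Lc_ee_zero]; exact WD_transport n _ _ _ (hW 0 i))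
    simp only [← lint_transport n, ContinuousLinearEquiv.symm_apply_apply] at h
    simp only [Lc_apply] at h
    refine h.trans ?_
    gcongr
    linarith
  · intro j hk
    obtain ⟨k, rfl⟩ := Fin.exists_succ_eq_of_ne_zero (x := k)
      (fun h => by rw [h] at hk; exact absurd hk (Fin.not_lt_zero _))
    have h := hY n j k (fun z => u ((Lc n).symm z)) (fun i z => D j.succ i ((Lc n).symm z))
      (fun h => by rw [h] at hk; exact absurd hk (lt_irrefl _))
      (memLp_transport n u hu) (fun i => memLp_transport n _ (hD j.succ i))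
      (fun i => by rw [← Lc_ee_succ]; exact WD_transport n _ _ _ (hW j.succ i))
    simp only [← lint_transport n, ContinuousLinearEquiv.symm_apply_apply] at h
    simp only [Lc_apply] at h
    refine h.trans ?_
    gcongr
    linarith

section real

variable {X : Type} [MeasureSpace X]

lemma int_sq (u : X → ℂ) (hu : MemLp u 2) : Integrable fun x => ‖u x‖ ^ 2 :=
  hu.integrable_norm_pow (by norm_num)

lemma lint_sq_lt (u : X → ℂ) (hu : MemLp u 2) : ∫⁻ x, ENNReal.ofReal (‖u x‖ ^ 2) < ⊤ := by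
  rw [← ofReal_integral_eq_lintegral_ofReal (int_sq u hu) (ae_of_all _ fun x => by positivity)]
  exact ENNReal.ofReal_lt_top

lemma integrable_of_bound (F : X → ℝ) (u : X → ℂ) (D : Fin 3 → X → ℂ) (hu : MemLp u 2)
    (hD : ∀ i, MemLp (D i) 2) (hF : AEStronglyMeasurable F volume) (h0 : ∀ x, 0 ≤ F x) (a C : ℝ)
    (ha : 0 ≤ a) (hC : 0 ≤ C)
    (h : ∫⁻ x, ENNReal.ofReal (F x) ≤ ENNReal.ofReal a * (∫⁻ x, ENNReal.ofReal (∑ i, ‖D i x‖ ^ 2)) +
        ENNReal.ofReal C * ∫⁻ x, ENNReal.ofReal (‖u x‖ ^ 2)) :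
    Integrable F ∧ ∫ x, F x ≤ a * (∑ i, ∫ x, ‖D i x‖ ^ 2) + C * ∫ x, ‖u x‖ ^ 2 := by
  have hDi : Integrable fun x => ∑ i, ‖D i x‖ ^ 2 := integrable_finsetSum _ fun i _ =>
    int_sq (D i) (hD i)
  rw [← ofReal_integral_eq_lintegral_ofReal hDi (ae_of_all _ fun x => by positivity),
    ← ofReal_integral_eq_lintegral_ofReal (int_sq u hu) (ae_of_all _ fun x => by positivity),
    ← ENNReal.ofReal_mul ha, ← ENNReal.ofReal_mul hC, ← ENNReal.ofReal_add
      (mul_nonneg ha (integral_nonneg fun x => by positivity))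
      (mul_nonneg hC (integral_nonneg fun x => by positivity))] at h
  have hFi : Integrable F := by
    refine ⟨hF, ?_⟩
    rw [hasFiniteIntegral_iff_ofReal (ae_of_all _ h0)]
    exact h.trans_lt ENNReal.ofReal_lt_top
  refine ⟨hFi, ?_⟩
  rw [← ofReal_integral_eq_lintegral_ofReal hFi (ae_of_all _ h0)] at h
  have h2 := (ENNReal.ofReal_le_ofReal_iff (add_nonneg
      (mul_nonneg ha (integral_nonneg fun x => by positivity))
      (mul_nonneg hC (integral_nonneg fun x => by positivity)))).1 h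
  rwa [integral_finsetSum _ fun i _ => int_sq (D i) (hD i)] at h2

end real

theorem t_WFB2 : S_WFB2 := by
  intro hFX hFY hCX hCY n v hv
  obtain ⟨v', hv', hm', hvv⟩ := repr_XStar v hv
  obtain ⟨C, hC, hb⟩ := bnd hFX hFY n v' hv' hm'
  obtain ⟨C', hC', hc⟩ := coul hCX hCY n
  refine ⟨(n + 1) * C, by positivity, ?_⟩
  intro Ψ G hΨ
  have hae : ∀ j : Fin (n + 1), ∀ᵐ x : Fin (n + 1) → E3, v (x j) = v' (x j) := fun j =>
    (Measure.quasiMeasurePreserving_eval (fun _ : Fin (n + 1) => (volume : Measure E3)) j).ae_eq_comp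
      hvv
  have hmu : ∀ s, AEStronglyMeasurable (fun x => ‖Ψ s x‖ ^ 2) volume := fun s =>
    ((hΨ.memLp s).aestronglyMeasurable.norm.pow 2)
  have key : ∀ s j, Integrable (fun x => |v' (x j)| * ‖Ψ s x‖ ^ 2) ∧
      ∫ x, |v' (x j)| * ‖Ψ s x‖ ^ 2 ≤ (1 / 4 : ℝ) * (∑ i, ∫ x, ‖G s j i x‖ ^ 2) +
        C * ∫ x, ‖Ψ s x‖ ^ 2 := by
    intro s j
    refine integrable_of_bound _ (Ψ s) (G s j) (hΨ.memLp s) (hΨ.gradMemLp s j) ?_
      (fun x => by positivity) _ _ (by norm_num) hC.le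
      (hb (Ψ s) (G s) (hΨ.memLp s) (hΨ.gradMemLp s) (hΨ.grad s) j)
    exact ((hm'.comp (measurable_pi_apply j)).norm.aestronglyMeasurable).mul (hmu s)
  refine ⟨?_, ?_, ?_⟩
  · intro s j
    have h1 : Integrable (fun x => v' (x j) * ‖Ψ s x‖ ^ 2) := by
      refine (key s j).1.mono
        (((hm'.comp (measurable_pi_apply j)).aestronglyMeasurable).mul (hmu s))
        (ae_of_all _ fun x => ?_)
      simp only [norm_mul, Real.norm_eq_abs, abs_abs, le_refl]
    refine h1.congr ?_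
    filter_upwards [hae j] with x hx
    rw [hx]
  · intro s j k hjk
    refine (integrable_of_bound _ (Ψ s) (G s j) (hΨ.memLp s) (hΨ.gradMemLp s j) ?_
      (fun x => by positivity) _ _ (by norm_num) hC'.le
      (hc (Ψ s) (G s) (hΨ.memLp s) (hΨ.gradMemLp s) (hΨ.grad s) j k hjk)).1
    refine Measurable.aestronglyMeasurable ?_ |>.mul (hmu s)
    exact measurable_const.div (((measurable_pi_apply j).sub (measurable_pi_apply k)).norm)
  · have e : ∀ s j, ∫ x, |v (x j)| * ‖Ψ s x‖ ^ 2 = ∫ x, |v' (x j)| * ‖Ψ s x‖ ^ 2 := by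
      intro s j
      refine integral_congr_ae ?_
      filter_upwards [hae j] with x hx
      rw [hx]
    simp only [e]
    calc ∑ s, ∑ j, ∫ x, |v' (x j)| * ‖Ψ s x‖ ^ 2
        ≤ ∑ s, ∑ j, ((1 / 4 : ℝ) * (∑ i, ∫ x, ‖G s j i x‖ ^ 2) + C * ∫ x, ‖Ψ s x‖ ^ 2) :=
          Finset.sum_le_sum fun s _ => Finset.sum_le_sum fun j _ => (key s j).2
      _ = (1 / 4 : ℝ) * (∑ s, ∑ j, ∑ i, ∫ x, ‖G s j i x‖ ^ 2) +
          (n + 1) * C * normSq (n + 1) Ψ := by
        unfold normSq
        simp only [Finset.sum_add_distrib, Finset.mul_sum, Finset.sum_const, Finset.card_univ,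
          Fintype.card_fin, nsmul_eq_mul]
        push_cast
        congr 1
        refine Finset.sum_congr rfl fun s _ => ?_
        ring

end Pool.Agent.H803.HK
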